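import Pool.Agent.H92.SG.Stmts

/-! Module SLIDE of board sg7. -/

namespace Pool.Agent.H66.SG

open Pool.Agent.H92.SG

theorem iter_σ (k i : ℕ) : (sh^[k]) (σ i) = σ (i + k) := by
  induction k with
  | zero => rfl
  | succ k ih => rw [Function.iterate_succ_apply', ih, sh_σ]; rfl

theorem iter_comm (k i : ℕ) (h : i + 2 ≤ k) (y : B) :
    σ i * (sh^[k]) y = (sh^[k]) y * σ i := by
  refine B_induction (p := fun y => σ i * (sh^[k]) y = (sh^[k]) y * σ i) ?_ ?_ ?_ ?_ y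
  · rw [iterate_map_one]; simp
  · intro j
    rw [iter_σ]; exact σ_comm (by omega)
  · intro x y hx hy
    rw [iterate_map_mul, ← mul_assoc, hx, mul_assoc, hy, mul_assoc]
  · intro x hx
    rw [iterate_map_inv]
    exact (Commute.inv_right (show Commute (σ i) ((sh^[k]) x) from hx))

theorem sh_mem {n : ℕ} {x : B} (hx : x ∈ Bn n) : sh x ∈ Bn (n + 1) := by
  refine Bn_induction (p := fun x => sh x ∈ Bn (n + 1)) ?_ ?_ ?_ ?_ hx
  · rw [map_one]; exact one_mem _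
  · intro i hi; rw [sh_σ]; exact σ_mem_Bn (by omega)
  · intro x _ y _ hx hy; rw [map_mul]; exact mul_mem hx hy
  · intro x _ hx; rw [map_inv]; exact inv_mem hx

theorem iter_mem {n : ℕ} (k : ℕ) {x : B} (hx : x ∈ Bn n) : (sh^[k]) x ∈ Bn (n + k) := by
  induction k with
  | zero => simpa using hx
  | succ k ih => rw [Function.iterate_succ_apply']; exact sh_mem ih

theorem perm_fix {n : ℕ} {x : B} (hx : x ∈ Bn n) : ∀ i, n ≤ i → perm x i = i := by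
  refine Bn_induction (p := fun x => ∀ i, n ≤ i → perm x i = i) ?_ ?_ ?_ ?_ hx
  · intro i _; rw [map_one]; rfl
  · intro j hj i hi; rw [perm_σ]; exact Equiv.swap_apply_of_ne_of_ne (by omega) (by omega)
  · intro x _ y _ hx hy i hi
    rw [map_mul, Equiv.Perm.mul_apply, hy i hi, hx i hi]
  · intro x _ hx i hi
    rw [map_inv]
    exact Equiv.Perm.inv_eq_iff_eq.mpr (hx i hi).symm

/-- `β` on 4 strands commutes with `σ j`, `j ≥ 4`. -/
theorem comm_far {n : ℕ} {x : B} (hx : x ∈ Bn n) (j : ℕ) (hj : n ≤ j) :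
    x * σ j = σ j * x := by
  refine Bn_induction (p := fun x => x * σ j = σ j * x) ?_ ?_ ?_ ?_ hx
  · simp
  · intro i hi; exact σ_comm (by omega)
  · intro x _ y _ hx hy; rw [mul_assoc, hy, ← mul_assoc, hx, mul_assoc]
  · intro x _ hx
    exact (Commute.inv_left (show Commute x (σ j) from hx))

/-- If `q * σ i = σ (i+1) * q` for `i = 0, 1, 2` then `q * β = sh β * q` for `β ∈ Bn 4`. -/
theorem sh_conj (q : B) (h : ∀ i < 3, q * σ i = σ (i + 1) * q) {x : B} (hx : x ∈ Bn 4) :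
    sh x * q = q * x := by
  refine Bn_induction (p := fun x => sh x * q = q * x) ?_ ?_ ?_ ?_ hx
  · simp
  · intro i hi; rw [sh_σ, h i (by omega)]
  · intro x _ y _ hx hy; rw [map_mul, mul_assoc, hy, ← mul_assoc, hx, mul_assoc]
  · intro x _ hx
    rw [map_inv, inv_mul_eq_iff_eq_mul, ← mul_assoc, hx, mul_assoc, mul_inv_cancel, mul_one]

theorem q1 : ∀ i < 3, (σ 0 * σ 1 * σ 2 * σ 3) * σ i = σ (i + 1) * (σ 0 * σ 1 * σ 2 * σ 3) := by
  have h01 := σ_braid 0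
  have h12 := σ_braid 1
  have h23 := σ_braid 2
  have c02 := σ_comm (show 0 + 2 ≤ 2 by omega)
  have c03 := σ_comm (show 0 + 2 ≤ 3 by omega)
  have c13 := σ_comm (show 1 + 2 ≤ 3 by omega)
  simp only [Nat.reduceAdd] at h01 h12 h23
  intro i hi
  interval_cases i
  · calc (σ 0 * σ 1 * σ 2 * σ 3) * σ 0 = σ 0 * σ 1 * σ 2 * (σ 3 * σ 0) := by group
      _ = σ 0 * σ 1 * (σ 2 * σ 0) * σ 3 := by rw [← c03]; group
      _ = (σ 0 * σ 1 * σ 0) * σ 2 * σ 3 := by rw [← c02]; group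
      _ = _ := by rw [h01]; group
  · calc (σ 0 * σ 1 * σ 2 * σ 3) * σ 1 = σ 0 * σ 1 * σ 2 * (σ 3 * σ 1) := by group
      _ = σ 0 * (σ 1 * σ 2 * σ 1) * σ 3 := by rw [← c13]; group
      _ = (σ 0 * σ 2) * σ 1 * σ 2 * σ 3 := by rw [h12]; group
      _ = _ := by rw [c02]; group
  · calc (σ 0 * σ 1 * σ 2 * σ 3) * σ 2 = σ 0 * σ 1 * (σ 2 * σ 3 * σ 2) := by group
      _ = σ 0 * (σ 1 * σ 3) * σ 2 * σ 3 := by rw [h23]; group
      _ = (σ 0 * σ 3) * σ 1 * σ 2 * σ 3 := by rw [c13]; group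
      _ = _ := by rw [c03]; group

/-- Inverse form of the braid relation: `a⁻¹ b⁻¹ a = b a⁻¹ b⁻¹`. -/
theorem inv_braid {G : Type*} [Group G] (a b : G) (h : a * b * a = b * a * b) :
    a⁻¹ * b⁻¹ * a = b * a⁻¹ * b⁻¹ := by
  have : a = b * a * b * a⁻¹ * b⁻¹ := by rw [← h]; group
  calc a⁻¹ * b⁻¹ * a = a⁻¹ * b⁻¹ * (b * a * b * a⁻¹ * b⁻¹) := by rw [← this]
    _ = _ := by group

theorem q2 : ∀ i < 3, ((σ 0)⁻¹ * (σ 1)⁻¹ * (σ 2)⁻¹ * (σ 3)⁻¹) * σ i =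
    σ (i + 1) * ((σ 0)⁻¹ * (σ 1)⁻¹ * (σ 2)⁻¹ * (σ 3)⁻¹) := by
  have h01 := inv_braid _ _ (σ_braid 0)
  have h12 := inv_braid _ _ (σ_braid 1)
  have h23 := inv_braid _ _ (σ_braid 2)
  have c02 := (Commute.inv_right (show Commute (σ 0) (σ 2) from σ_comm (by omega))).eq
  have c03 := (Commute.inv_right (show Commute (σ 0) (σ 3) from σ_comm (by omega))).eq
  have c13 := (Commute.inv_right (show Commute (σ 1) (σ 3) from σ_comm (by omega))).eq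
  have d02 := (Commute.inv_left (show Commute (σ 0) (σ 2) from σ_comm (by omega))).eq
  have d03 := (Commute.inv_left (show Commute (σ 0) (σ 3) from σ_comm (by omega))).eq
  have d13 := (Commute.inv_left (show Commute (σ 1) (σ 3) from σ_comm (by omega))).eq
  simp only [Nat.reduceAdd] at h01 h12 h23
  intro i hi
  interval_cases i
  · calc ((σ 0)⁻¹ * (σ 1)⁻¹ * (σ 2)⁻¹ * (σ 3)⁻¹) * σ 0
        = (σ 0)⁻¹ * (σ 1)⁻¹ * (σ 2)⁻¹ * ((σ 3)⁻¹ * σ 0) := by group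
      _ = (σ 0)⁻¹ * (σ 1)⁻¹ * ((σ 2)⁻¹ * σ 0) * (σ 3)⁻¹ := by rw [← c03]; group
      _ = ((σ 0)⁻¹ * (σ 1)⁻¹ * σ 0) * (σ 2)⁻¹ * (σ 3)⁻¹ := by rw [← c02]; group
      _ = _ := by rw [h01]; group
  · calc ((σ 0)⁻¹ * (σ 1)⁻¹ * (σ 2)⁻¹ * (σ 3)⁻¹) * σ 1
        = (σ 0)⁻¹ * (σ 1)⁻¹ * (σ 2)⁻¹ * ((σ 3)⁻¹ * σ 1) := by group
      _ = (σ 0)⁻¹ * ((σ 1)⁻¹ * (σ 2)⁻¹ * σ 1) * (σ 3)⁻¹ := by rw [← c13]; group
      _ = ((σ 0)⁻¹ * σ 2) * (σ 1)⁻¹ * (σ 2)⁻¹ * (σ 3)⁻¹ := by rw [h12]; group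
      _ = _ := by rw [d02]; group
  · calc ((σ 0)⁻¹ * (σ 1)⁻¹ * (σ 2)⁻¹ * (σ 3)⁻¹) * σ 2
        = (σ 0)⁻¹ * (σ 1)⁻¹ * ((σ 2)⁻¹ * (σ 3)⁻¹ * σ 2) := by group
      _ = (σ 0)⁻¹ * ((σ 1)⁻¹ * σ 3) * (σ 2)⁻¹ * (σ 3)⁻¹ := by rw [h23]; group
      _ = ((σ 0)⁻¹ * σ 3) * (σ 1)⁻¹ * (σ 2)⁻¹ * (σ 3)⁻¹ := by rw [d13]; group
      _ = _ := by rw [d03]; group

/-- Conjugation invariance, as an equivalence. -/
theorem conj_iff (hSC : SurfConjStmt) (n : ℕ) (β g : B) (e : ℕ) (hg : g ∈ Bn n) :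
    Surf n β e ↔ Surf n (g⁻¹ * β * g) e := by
  constructor
  · intro h
    have := hSC n β g⁻¹ e (inv_mem hg) h
    rwa [inv_inv] at this
  · intro h
    have := hSC n _ g e hg h
    have h2 : g * (g⁻¹ * β * g) * g⁻¹ = β := by group
    rwa [h2] at this

theorem SLIDE_thm (hSC : SurfConjStmt) (hSL : SurfLStabStmt) : SlideStmt := by
  intro N Y β e hN hβ hY
  set X : B := (sh^[3]) Y with hX
  have hXN : X ∈ Bn N := by
    have := iter_mem 3 hY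
    rwa [show N - 3 + 3 = N by omega] at this
  have hβN : β ∈ Bn N := Bn_mono (by omega) hβ
  have hβN1 : β ∈ Bn (N + 1) := Bn_mono (by omega) hβ
  have s0 : σ 0 ∈ Bn (N + 1) := σ_mem_Bn (by omega)
  have s1 : σ 1 ∈ Bn (N + 1) := σ_mem_Bn (by omega)
  have s2 : σ 2 ∈ Bn (N + 1) := σ_mem_Bn (by omega)
  have s3 : σ 3 ∈ Bn (N + 1) := σ_mem_Bn (by omega)
  have s4 : σ 4 ∈ Bn (N + 1) := σ_mem_Bn (by omega)
  have s3' : σ 3 ∈ Bn N := σ_mem_Bn (by omega)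
  have hshX : sh X = (sh^[4]) Y := by
    rw [hX]; exact (Function.iterate_succ_apply' _ _ _).symm
  have cX : ∀ i ≤ 2, Commute (σ i) (sh X) := by
    intro i hi
    rw [hshX]; exact iter_comm 4 i (by omega) Y
  have cβ : β * σ 4 = σ 4 * β := comm_far hβ 4 le_rfl
  have c4 : ∀ i ≤ 2, Commute (σ i) (σ 4) := fun i hi => σ_comm (by omega)
  have h34 := σ_braid 3
  simp only [Nat.reduceAdd] at h34
  -- first half
  have A1 : Surf N (X * β * (σ 3 * σ 3)) e ↔ Surf (N + 1) (sh X * σ 3 * β * σ 4 * σ 3) e := by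
    set P : B := σ 0 * σ 1 * σ 2 with hP
    have hPm : P ∈ Bn (N + 1) := mul_mem (mul_mem s0 s1) s2
    have hb : IsBand (N + 1) (P * (σ 4)⁻¹ * σ 3 * (P * (σ 4)⁻¹)⁻¹) :=
      ⟨P * (σ 4)⁻¹, mul_mem hPm (inv_mem s4), 3, by omega, Or.inl rfl⟩
    have hp : perm (P * (σ 4)⁻¹ * σ 3 * (P * (σ 4)⁻¹)⁻¹) 0 ≠ 0 := by
      simp only [hP, mul_inv_rev, inv_inv, map_mul, map_inv, perm_σ, Equiv.Perm.mul_apply,
        Equiv.swap_inv]
      decide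
    have h1 := hSL N (X * β * (σ 3 * σ 3)) _ e (by omega)
      (mul_mem (mul_mem hXN hβN) (mul_mem s3' s3')) hb hp
    rw [h1, conj_iff hSC (N + 1) _ P e hPm]
    have hcX : Commute P (sh X) :=
      ((cX 0 (by omega)).mul_left (cX 1 (by omega))).mul_left (cX 2 (by omega))
    have hc4 : Commute P (σ 4) :=
      ((c4 0 (by omega)).mul_left (c4 1 (by omega))).mul_left (c4 2 (by omega))
    have hsh : sh β * (P * σ 3) = P * σ 3 * β := sh_conj _ q1 hβ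
    have key : P⁻¹ * (sh (X * β * (σ 3 * σ 3)) * (P * (σ 4)⁻¹ * σ 3 * (P * (σ 4)⁻¹)⁻¹)) * P =
        sh X * σ 3 * β * σ 4 * σ 3 := by
      have e1 : sh β = P * σ 3 * β * (P * σ 3)⁻¹ := by rw [← hsh]; group
      have e2 : P⁻¹ * sh X = sh X * P⁻¹ := (hcX.inv_left).eq
      have e3 : P⁻¹ * σ 4 = σ 4 * P⁻¹ := (hc4.inv_left).eq
      have e4 : P⁻¹ * (σ 4 * σ 4) * P = σ 4 * σ 4 := by
        rw [((hc4.mul_right hc4).inv_left).eq, mul_assoc, inv_mul_cancel, mul_one]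
      rw [map_mul, map_mul, map_mul, sh_σ, e1]
      calc _ = (P⁻¹ * sh X) * P * σ 3 * β * (σ 3)⁻¹ * (P⁻¹ * (σ 4 * σ 4) * P) * (σ 4)⁻¹ *
            σ 3 * σ 4 := by group
        _ = sh X * σ 3 * β * (σ 3)⁻¹ * (σ 4 * σ 3 * σ 4) := by rw [e2, e4]; group
        _ = sh X * σ 3 * β * (σ 3)⁻¹ * (σ 3 * σ 4 * σ 3) := by rw [h34]
        _ = _ := by group
    rw [key]
  have A2 : Surf N (X * (σ 3 * σ 3) * β) e ↔ Surf (N + 1) (sh X * σ 3 * β * σ 4 * σ 3) e := by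
    set P : B := (σ 0)⁻¹ * (σ 1)⁻¹ * (σ 2)⁻¹ with hP
    have hPm : P ∈ Bn (N + 1) := mul_mem (mul_mem (inv_mem s0) (inv_mem s1)) (inv_mem s2)
    set g : B := P * ((σ 3)⁻¹ * β⁻¹ * (σ 3 * σ 3)) with hg
    have hgm : g ∈ Bn (N + 1) :=
      mul_mem hPm (mul_mem (mul_mem (inv_mem s3) (inv_mem hβN1)) (mul_mem s3 s3))
    have hb : IsBand (N + 1) (g * σ 4 * g⁻¹) := ⟨g, hgm, 4, by omega, Or.inl rfl⟩
    have hpg : perm g 4 = 0 := by
      have hb4 : (perm β)⁻¹ 4 = 4 := by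
        rw [Equiv.Perm.inv_eq_iff_eq]; exact (perm_fix hβ 4 le_rfl).symm
      have e1 : (Equiv.swap 3 4 : Equiv.Perm ℕ) (Equiv.swap 3 4 4) = 4 := by decide
      simp only [hg, hP, map_mul, map_inv, perm_σ, Equiv.Perm.mul_apply, Equiv.swap_inv,
        Nat.reduceAdd, e1, hb4]
      decide
    have hpg5 : perm g 5 = 5 := by
      have hb5 : (perm β)⁻¹ 5 = 5 := by
        rw [Equiv.Perm.inv_eq_iff_eq]; exact (perm_fix hβ 5 (by omega)).symm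
      have e1 : (Equiv.swap 3 4 : Equiv.Perm ℕ) (Equiv.swap 3 4 5) = 5 := by decide
      simp only [hg, hP, map_mul, map_inv, perm_σ, Equiv.Perm.mul_apply, Equiv.swap_inv,
        Nat.reduceAdd, e1, hb5]
      decide
    have hp : perm (g * σ 4 * g⁻¹) 0 ≠ 0 := by
      have e0 : (perm g)⁻¹ 0 = 4 := by rw [Equiv.Perm.inv_eq_iff_eq]; exact hpg.symm
      rw [map_mul, map_mul, map_inv, Equiv.Perm.mul_apply, Equiv.Perm.mul_apply, e0, perm_σ,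
        Equiv.swap_apply_left, hpg5]
      decide
    have h1 := hSL N (X * (σ 3 * σ 3) * β) _ e (by omega)
      (mul_mem (mul_mem hXN (mul_mem s3' s3')) hβN) hb hp
    rw [h1, conj_iff hSC (N + 1) _ P e hPm]
    have hcX : Commute P (sh X) :=
      (((cX 0 (by omega)).inv_left).mul_left ((cX 1 (by omega)).inv_left)).mul_left
        ((cX 2 (by omega)).inv_left)
    have hc4 : Commute P (σ 4) :=
      (((c4 0 (by omega)).inv_left).mul_left ((c4 1 (by omega)).inv_left)).mul_left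
        ((c4 2 (by omega)).inv_left)
    have hsh : sh β * (P * (σ 3)⁻¹) = P * (σ 3)⁻¹ * β := sh_conj _ q2 hβ
    have key : P⁻¹ * (sh (X * (σ 3 * σ 3) * β) * (g * σ 4 * g⁻¹)) * P =
        sh X * σ 3 * β * σ 4 * σ 3 := by
      have e1 : sh β = P * (σ 3)⁻¹ * β * (P * (σ 3)⁻¹)⁻¹ := by rw [← hsh]; group
      have e2 : P⁻¹ * sh X = sh X * P⁻¹ := (hcX.inv_left).eq
      have e3 : P⁻¹ * σ 4 = σ 4 * P⁻¹ := (hc4.inv_left).eq
      have e4 : P⁻¹ * (σ 4 * σ 4) * P = σ 4 * σ 4 := by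
        rw [((hc4.mul_right hc4).inv_left).eq, mul_assoc, inv_mul_cancel, mul_one]
      rw [map_mul, map_mul, map_mul, sh_σ, e1, hg]
      calc _ = (P⁻¹ * sh X) * (σ 4 * σ 4) * P * σ 3 * σ 4 *
            ((σ 3)⁻¹ * (σ 3)⁻¹) * β * σ 3 := by group
        _ = sh X * (P⁻¹ * (σ 4 * σ 4) * P) * σ 3 * σ 4 *
            ((σ 3)⁻¹ * (σ 3)⁻¹) * β * σ 3 := by rw [e2]; group
        _ = sh X * σ 4 * (σ 4 * σ 3 * σ 4) * ((σ 3)⁻¹ * (σ 3)⁻¹) * β * σ 3 := by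
            rw [e4]; group
        _ = sh X * σ 4 * (σ 3 * σ 4 * σ 3) * ((σ 3)⁻¹ * (σ 3)⁻¹) * β * σ 3 := by rw [h34]
        _ = sh X * (σ 4 * σ 3 * σ 4) * (σ 3)⁻¹ * β * σ 3 := by group
        _ = sh X * (σ 3 * σ 4 * σ 3) * (σ 3)⁻¹ * β * σ 3 := by rw [h34]
        _ = sh X * σ 3 * (σ 4 * β) * σ 3 := by group
        _ = _ := by rw [← cβ]; group
    rw [key]
  rw [A1, A2]

end Pool.Agent.H66.SG
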